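import Pool.Agent.Q59.VZ.Main
import Pool.Agent.Q59.S6.All
import Pool.Agent.Q59.TW.Total

/-!
# Local systems on pointed curves: numerical data, and the lines of the determinants
-/

namespace Pool.Agent.Q59.IB

open Pool.Agent.H916R2 Pool.Agent.Y2.Cv Pool.Agent.Q59.GC Pool.Agent.Q59.VZ

/-- The numerical invariants of a finite family of local systems `L_i` of finite monodromy on pointed
curves of genus `genus i`, closed under duality: `star i` is the dual local system, `alt i` means that
`L_i` is irreducible with an invariant alternating form, `rank i` is the rank, `inv i` the dimension of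
the space of the global sections, `ex i` the multiset of the nonzero local exponents, residues
modulo `N` with sum zero, and `dim i` the dimension of the first cohomology group `V_i`. -/
structure LocalSystems (N : ℕ) (I : Type) where
  star : I → I
  star_star : ∀ i, star (star i) = i
  alt : I → Bool
  alt_star : ∀ i, alt i = true → star i = i
  genus : I → ℕ
  genus_star : ∀ i, genus (star i) = genus i
  rank : I → ℕ
  rank_star : ∀ i, rank (star i) = rank i
  inv : I → ℕ
  inv_star : ∀ i, inv (star i) = inv i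
  ex : I → Multiset (ZMod N)
  ex_ne : ∀ i, (0 : ZMod N) ∉ ex i
  ex_sum : ∀ i, (ex i).sum = 0
  ex_star : ∀ i, ex (star i) = (ex i).map fun a => -a
  dim : I → ℕ
  dim_eq : ∀ i, (dim i : ℤ) =
    Multiset.card (ex i) + 2 * (((genus i : ℤ) - 1) * rank i + inv i)

/-- The numerical invariants of the spaces `V_i = H ^ 1 (L_i)`. -/
def LocalSystems.labels {N : ℕ} {I : Type} (S : LocalSystems N I) : Labels N I where
  star := S.star
  star_star := S.star_star
  orth := S.alt
  orth_star := S.alt_star
  dim := S.dim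
  dim_star i := by
    have h1 := S.dim_eq i
    have h2 := S.dim_eq (S.star i)
    rw [S.genus_star, S.rank_star, S.inv_star, S.ex_star, Multiset.card_map, ← h1] at h2
    exact_mod_cast h2
  ex := S.ex
  half i := ((S.genus i : ℤ) - 1) * S.rank i + S.inv i
  dim_eq := S.dim_eq
  ex_ne := S.ex_ne
  ex_sum := S.ex_sum
  ex_star := S.ex_star

/-- The Hodge number of the line of the Fermat variety with the character `u`, at the embedding given
by the unit `t`, minus half the weight: the sum of the `⟨t a⟩ - 1 / 2`, `a` in `u`. -/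
noncomputable def offset {N : ℕ} (t : ZMod N) (u : Multiset (ZMod N)) : ℚ :=
  (u.map fun a => ((t * a).val : ℚ) / N - 1 / 2).sum

/-- Membership in the family generated by the pairs, the standard characters, the characters with
four entries and the curve products, in the degree `m` if `m` is even and in the degree `2 * m` if
`m` is odd. -/
def AlgebraicLine (m : ℕ) (s : Multiset (ZMod m)) : Prop :=
  (Even m → Generated m (SurfaceOrCurveProduct m) s) ∧
    (Odd m → Generated (2 * m) (SurfaceOrCurveProduct (2 * m))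
      (s.map fun a => ((2 * a.val : ℕ) : ZMod (2 * m))))

/-- A union of pairs `(a, -a)`. -/
def Balanced {N : ℕ} (u : Multiset (ZMod N)) : Prop :=
  ∃ v : Multiset (ZMod N), u = v + v.map fun a => -a

/-- A union of doubles `(a, a)` and pairs `(a, -a)`. -/
def EvenType {N : ℕ} (u : Multiset (ZMod N)) : Prop :=
  ∃ v w : Multiset (ZMod N), u = v + v + (w + w.map fun a => -a)

/-- The excluded divisors of even degrees for the characters with at most `k` entries: `420`,
`4 * q` with `17 ≤ q ≤ 2 * k + 1`, `6 * q` with `23 ≤ q ≤ 4 * k + 1`, `10 * q` with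
`11 ≤ q ≤ 2 * k + 1` and `2 * p * q` with `7 ≤ p < q ≤ k + 1`, where `p` and `q` are primes. -/
def ExcludedEven (k : ℕ) : Set ℕ :=
  {l | l = 420 ∨ (∃ q : ℕ, q.Prime ∧ 17 ≤ q ∧ q ≤ 2 * k + 1 ∧ l = 4 * q) ∨
    (∃ q : ℕ, q.Prime ∧ 23 ≤ q ∧ q ≤ 4 * k + 1 ∧ l = 6 * q) ∨
    (∃ q : ℕ, q.Prime ∧ 11 ≤ q ∧ q ≤ 2 * k + 1 ∧ l = 10 * q) ∨
    (∃ p q : ℕ, p.Prime ∧ q.Prime ∧ 7 ≤ p ∧ p < q ∧ q ≤ k + 1 ∧ l = 2 * p * q)}

/-- The excluded divisors of odd degrees for the characters with at most `k` entries: `3 * q` with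
`23 ≤ q ≤ 2 * k + 1` and `p * q` with `5 ≤ p < q`, `11 ≤ q ≤ k + 1`, where `p` and `q` are primes. -/
def ExcludedOdd (k : ℕ) : Set ℕ :=
  {l | (∃ q : ℕ, q.Prime ∧ 23 ≤ q ∧ q ≤ 2 * k + 1 ∧ l = 3 * q) ∨
    (∃ p q : ℕ, p.Prime ∧ q.Prime ∧ 5 ≤ p ∧ p < q ∧ 11 ≤ q ∧ q ≤ k + 1 ∧ l = p * q)}

/-- All excluded numbers are at least `55`. -/
lemma excluded_ge (k l : ℕ) (h : l ∈ ExcludedEven k ∨ l ∈ ExcludedOdd k) : 55 ≤ l := by
  rcases h with (h | h | h | h | h) | (h | h)
  · omega
  · obtain ⟨q, -, h1, -, rfl⟩ := h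
    omega
  · obtain ⟨q, -, h1, -, rfl⟩ := h
    omega
  · obtain ⟨q, -, h1, -, rfl⟩ := h
    omega
  · obtain ⟨p, q, hp, hq, h1, h2, -, rfl⟩ := h
    have h3 : 8 ≤ q := by omega
    nlinarith
  · obtain ⟨q, -, h1, -, rfl⟩ := h
    omega
  · obtain ⟨p, q, -, -, h1, h2, h3, -, rfl⟩ := h
    nlinarith

section

variable {N : ℕ} [NeZero N]

lemma offset_neg (t : (ZMod N)ˣ) (u : Multiset (ZMod N)) (hu : (0 : ZMod N) ∉ u) :
    offset (((-t : (ZMod N)ˣ) : ZMod N)) u = - offset (t : ZMod N) u := by
  have hN : (N : ℚ) ≠ 0 := by exact_mod_cast NeZero.ne N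
  unfold offset
  induction u using Multiset.induction_on with
  | empty => simp
  | cons a u ih =>
    have ha : a ≠ 0 := fun h => hu (h ▸ Multiset.mem_cons_self _ _)
    rw [Multiset.map_cons, Multiset.sum_cons, Multiset.map_cons, Multiset.sum_cons,
      ih fun h => hu (Multiset.mem_cons_of_mem h)]
    have h1 : ((((-t : (ZMod N)ˣ) : ZMod N) * a).val : ℚ) = N - (((t : ZMod N) * a).val : ℚ) := by
      have h2 := val_neg_mul (t : ZMod N) a fun h' => ha (t.isUnit.mul_right_eq_zero.mp h')
      rw [mul_neg, ← neg_mul] at h2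
      rw [Units.val_neg]
      exact_mod_cast congrArg (Int.cast : ℤ → ℚ) h2
    rw [h1]
    field_simp
    ring

lemma offset_star (t : (ZMod N)ˣ) (u : Multiset (ZMod N)) (hu : (0 : ZMod N) ∉ u) :
    offset (t : ZMod N) (u.map fun a => -a) = - offset (t : ZMod N) u := by
  have h1 : offset (t : ZMod N) (u.map fun a => -a) =
      offset (((-t : (ZMod N)ˣ) : ZMod N)) u := by
    unfold offset
    rw [Multiset.map_map]
    refine congrArg Multiset.sum (Multiset.map_congr rfl fun a _ => ?_)
    rw [Function.comp_apply, mul_neg, Units.val_neg, neg_mul]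
  rw [h1, offset_neg t u hu]

lemma offset_sum {I : Type} {Λ : Labels N I} (t : ZMod N) {l : ℕ} (μ : Fin l → I) :
    offset t (exAll Λ μ) = ∑ j, offset t (Λ.ex (μ j)) := by
  unfold exAll
  let φ : Multiset (ZMod N) →+ ℚ :=
    ⟨⟨fun s => offset t s, by simp [offset]⟩, fun s t' => by simp [offset]⟩
  exact map_sum φ (fun j => Λ.ex (μ j)) Finset.univ

lemma hodge_offset {I : Type} {Λ : Labels N I} (t : ZMod N) (i : I) :
    hodge Λ t i = offset t (Λ.ex i) + (Λ.dim i : ℚ) / 2 := by
  have h1 : ∀ u : Multiset (ZMod N), offset t u =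
      ((u.map fun a => ((t * a).val : ℚ)).sum) / N - (Multiset.card u : ℚ) / 2 := by
    intro u
    unfold offset
    induction u using Multiset.induction_on with
    | empty => simp
    | cons a u ih =>
      rw [Multiset.map_cons, Multiset.sum_cons, ih, Multiset.map_cons, Multiset.sum_cons,
        Multiset.card_cons]
      push_cast
      ring
  have h2 : (Λ.dim i : ℚ) = Multiset.card (Λ.ex i) + 2 * Λ.half i := by
    exact_mod_cast Λ.dim_eq i
  unfold hodge
  rw [h1, h2]
  ring

lemma isHodge_of_offset {u : Multiset (ZMod N)} (h0 : (0 : ZMod N) ∉ u) (hsum : u.sum = 0)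
    (h : ∀ t : (ZMod N)ˣ, offset (t : ZMod N) u = 0) : IsHodge N u := by
  have hN : (N : ℚ) ≠ 0 := by exact_mod_cast NeZero.ne N
  have h1 : ∀ t : (ZMod N)ˣ, 2 * (u.map fun a => ((t : ZMod N) * a).val).sum =
      N * Multiset.card u := by
    intro t
    have h2 := h t
    have h3 : ∀ u : Multiset (ZMod N), offset (t : ZMod N) u * (2 * N) =
        2 * (((u.map fun a => ((t : ZMod N) * a).val).sum : ℕ) : ℚ) - N * Multiset.card u := by
      intro u
      unfold offset
      induction u using Multiset.induction_on with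
      | empty => simp
      | cons a u ih =>
        rw [Multiset.map_cons, Multiset.sum_cons, add_mul, ih, Multiset.map_cons,
          Multiset.sum_cons, Multiset.card_cons]
        push_cast
        field_simp
        ring
    have h4 := h3 u
    rw [h2, zero_mul] at h4
    have h5 : (2 : ℚ) * (((u.map fun a => ((t : ZMod N) * a).val).sum : ℕ) : ℚ) =
        N * Multiset.card u := by linarith
    exact_mod_cast h5
  refine ⟨h0, ?_, hsum, h1⟩
  have h2 := h1 1
  simp only [Units.val_one, one_mul] at h2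
  have h3 : (((u.map fun a => a.val).sum : ℕ) : ZMod N) = 0 := by
    rw [← hsum]
    have h5 := map_multiset_sum (Nat.castAddMonoidHom (ZMod N)) (u.map fun a => a.val)
    rw [Multiset.map_map] at h5
    refine (Eq.trans h5 ?_)
    congr 1
    conv_rhs => rw [← Multiset.map_id u]
    exact Multiset.map_congr rfl fun a _ => ZMod.natCast_zmod_val a
  rw [ZMod.natCast_eq_zero_iff] at h3
  obtain ⟨q, hq⟩ := h3
  rw [hq] at h2
  have h4 : N * (2 * q) = N * Multiset.card u := by rw [← h2]; ring
  exact ⟨q, by rw [← Nat.eq_of_mul_eq_mul_left (NeZero.pos N) h4]; ring⟩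

omit [NeZero N] in
lemma Balanced.sum {ι : Type} (A : Finset ι) (f : ι → Multiset (ZMod N))
    (h : ∀ i, Balanced (f i)) : Balanced (∑ i ∈ A, f i) := by
  classical
  induction A using Finset.induction_on with
  | empty => exact ⟨0, by simp⟩
  | insert i A hi ih =>
    obtain ⟨v, hv⟩ := h i
    obtain ⟨w, hw⟩ := ih
    refine ⟨v + w, ?_⟩
    rw [Finset.sum_insert hi, hw, hv, Multiset.map_add]
    abel

lemma Balanced.offset_eq {u : Multiset (ZMod N)} (h : Balanced u) (h0 : (0 : ZMod N) ∉ u)
    (t : (ZMod N)ˣ) : offset (t : ZMod N) u = 0 := by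
  obtain ⟨v, rfl⟩ := h
  have h1 : (0 : ZMod N) ∉ v := fun h => h0 (Multiset.mem_add.mpr (Or.inl h))
  have h2 : offset (t : ZMod N) (v + v.map fun a => -a) =
      offset (t : ZMod N) v + offset (t : ZMod N) (v.map fun a => -a) := by
    unfold offset
    rw [Multiset.map_add, Multiset.sum_add]
  rw [h2, offset_star t v h1, add_neg_cancel]

lemma EvenType.shape {u : Multiset (ZMod N)} (h : EvenType u) (h0 : (0 : ZMod N) ∉ u) :
    Pool.Agent.Q59.TW.Shape u := by
  obtain ⟨v, w, rfl⟩ := h
  refine (Pool.Agent.Q59.TW.Shape.double fun h => h0 ?_).add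
    (Pool.Agent.Q59.TW.Shape.pairs fun h => h0 ?_)
  · exact Multiset.mem_add.mpr (Or.inl (Multiset.mem_add.mpr (Or.inl h)))
  · exact Multiset.mem_add.mpr (Or.inr (Multiset.mem_add.mpr (Or.inl h)))

end


section

variable {N : ℕ} [NeZero N] {I : Type} [Fintype I] [DecidableEq I] (S : LocalSystems N I)

/-- All exponents form doubles and pairs, or the numbers of the exponents are bounded by multiples
of the dimensions and `N` has no excluded divisors. -/
def Tame (s : ℕ) : Prop :=
  (∀ i, EvenType (S.ex i)) ∨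
    (∃ B : ℕ, (∀ i, 0 < S.dim i → Multiset.card (S.ex i) ≤ B * S.dim i) ∧
      (Even N → ∀ l ∈ ExcludedEven (B * s), ¬ l ∣ N) ∧
      (Odd N → ∀ l ∈ ExcludedOdd (B * s), ¬ l ∣ N))

variable {S}

omit [Fintype I] [DecidableEq I] in
/-- The exponents of determinants which form a Hodge character belong to an algebraic line. -/
lemma algebraicLine_of_offset {s : ℕ} (h : Tame S s) {l : ℕ} {μ : Fin l → I}
    (hpos : ∀ j, 0 < S.dim (μ j)) (hsum : ∑ j, S.dim (μ j) ≤ s)
    (hoff : ∀ t : (ZMod N)ˣ, offset (t : ZMod N) (exAll S.labels μ) = 0) :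
    exAll S.labels μ = 0 ∨ AlgebraicLine N (exAll S.labels μ) := by
  have h0 := exAll_zero_notMem (Λ := S.labels) μ
  by_cases hL : exAll S.labels μ = 0
  · exact Or.inl hL
  right
  have hH : IsHodge N (exAll S.labels μ) :=
    isHodge_of_offset h0 (exAll_sum_zero (Λ := S.labels) μ) hoff
  rcases h with hev | ⟨B, hB, heven, hodd⟩
  · have hshape : Pool.Agent.Q59.TW.Shape (exAll S.labels μ) :=
      Pool.Agent.Q59.TW.Shape.sum _ _ fun j _ =>
        EvenType.shape (hev (μ j)) (S.ex_ne (μ j))
    refine ⟨fun _ => hshape.generated hH hL _, fun _ => ?_⟩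
    have hNz2 : NeZero (2 * N) := ⟨by have := NeZero.ne N; omega⟩
    refine (hshape.map_iota (m := 2 * N) rfl).generated (IsHodge.iota rfl hH) ?_ _
    intro h
    exact hL (Multiset.map_eq_zero.mp h)
  have hcard : Multiset.card (exAll S.labels μ) ≤ B * s := by
    rw [exAll_card]
    calc ∑ j, Multiset.card (S.labels.ex (μ j)) ≤ ∑ j, B * S.dim (μ j) :=
          Finset.sum_le_sum fun j _ => hB (μ j) (hpos j)
      _ = B * ∑ j, S.dim (μ j) := by rw [Finset.mul_sum]
      _ ≤ B * s := Nat.mul_le_mul_left B hsum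
  refine ⟨fun he => ?_, fun ho => ?_⟩
  · exact Pool.Agent.Q59.S6.main_all_even he.two_dvd (fun l hl => heven he l hl) hH hL hcard
  · exact Pool.Agent.Q59.S6.main_all_odd (Nat.odd_iff.mp ho) (fun l hl => hodd ho l hl) hH hL
      hcard

end

end Pool.Agent.Q59.IB
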