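import Pool.Agent.Q59.IB.Iso

/-!
# Elements of `D` have determinant one on all `V_i`
-/

namespace Pool.Agent.Q59.IB

open Finset Pool.Agent.Q59.GC Pool.Agent.Q59.VZ

/-- a matrix which preserves an alternating form given by an involution has determinant one -/
lemma det_of_alt {K : Type} [Fintype K] [LinearOrder K] {σ : K → K} (hσ : ∀ a, σ (σ a) = a)
    (hne : ∀ a, σ a ≠ a) {e : K → ℂ} (he : ∀ a, e (σ a) = -e a) (he0 : ∀ a, e a ≠ 0)
    {g : Matrix K K ℂ}
    (hg : g * (Matrix.of fun a b => if b = σ a then e a else 0) * g.transpose =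
      Matrix.of fun a b => if b = σ a then e a else 0) : g.det = 1 := by
  classical
  let l := {a : K // a < σ a}
  let E : l ⊕ l ≃ K :=
    { toFun := Sum.elim (fun a => (a : K)) fun a => σ a
      invFun := fun a => if h : a < σ a then Sum.inl ⟨a, h⟩ else
        Sum.inr ⟨σ a, by rw [hσ]; exact lt_of_le_of_ne (not_lt.mp h) (hne a)⟩
      left_inv := by
        rintro (a | a)
        · exact dif_pos a.2
        · refine (dif_neg ?_).trans ?_
          · change ¬ σ (a : K) < σ (σ a)
            rw [hσ]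
            exact not_lt.mpr a.2.le
          · congr 1
            exact Subtype.ext (hσ a)
      right_inv := by
        intro a
        by_cases h : a < σ a
        · simp only [dif_pos h, Sum.elim_inl]
        · simp only [dif_neg h, Sum.elim_inr]
          exact hσ a }
  let dd : l ⊕ l → ℂ := Sum.elim (fun _ => 1) fun a => - e a
  have hdd : ∀ x, dd x ≠ 0 := by
    rintro (a | a)
    · exact one_ne_zero
    · exact neg_ne_zero.mpr (he0 a)
  let g' : Matrix (l ⊕ l) (l ⊕ l) ℂ := Matrix.of fun x y => (dd x)⁻¹ * g (E x) (E y) * dd y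
  have hJ : ∀ x y, dd x * Matrix.J l ℂ x y * dd y =
      if E y = σ (E x) then e (E x) else 0 := by
    rintro (a | a) (b | b)
    · have h1 : ¬ (b : K) = σ a := fun h => by
        have h2 := b.2
        rw [h, hσ] at h2
        exact absurd h2 (not_lt.mpr a.2.le)
      change 1 * Matrix.J l ℂ (Sum.inl a) (Sum.inl b) * 1 = if (b : K) = σ a then e a else 0
      rw [if_neg h1]
      simp [Matrix.J]
    · change 1 * Matrix.J l ℂ (Sum.inl a) (Sum.inr b) * (-e b) =
        if σ (b : K) = σ a then e a else 0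
      by_cases h : a = b
      · subst h
        rw [if_pos rfl]
        simp [Matrix.J]
      · rw [if_neg fun h1 => h (Subtype.ext (by rw [← hσ (a : K), ← h1, hσ]))]
        simp [Matrix.J, h]
    · change -e a * Matrix.J l ℂ (Sum.inr a) (Sum.inl b) * 1 =
        if (b : K) = σ (σ a) then e (σ a) else 0
      by_cases h : a = b
      · subst h
        rw [if_pos (hσ _).symm, he]
        simp [Matrix.J]
      · rw [if_neg fun h1 => h (Subtype.ext (by rw [h1, hσ]))]
        simp [Matrix.J, h]
    · have h1 : ¬ σ (b : K) = σ (σ a) := fun h => by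
        have h2 := b.2
        rw [hσ] at h
        have h3 : (b : K) = σ a := by rw [← h, hσ]
        rw [h3, hσ] at h2
        exact absurd h2 (not_lt.mpr a.2.le)
      change -e a * Matrix.J l ℂ (Sum.inr a) (Sum.inr b) * (-e b) =
        if σ (b : K) = σ (σ a) then e (σ a) else 0
      rw [if_neg h1]
      simp [Matrix.J]
  have hsymp : g' ∈ Matrix.symplecticGroup l ℂ := by
    rw [SymplecticGroup.mem_iff]
    ext x y
    have h1 := congrFun (congrFun hg (E x)) (E y)
    simp only [Matrix.mul_apply, Matrix.transpose_apply, Matrix.of_apply] at h1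
    simp only [Matrix.mul_apply, Matrix.transpose_apply]
    have h2 : ∑ y', (∑ x', g' x x' * Matrix.J l ℂ x' y') * g' y y' =
        (dd x)⁻¹ * (dd y)⁻¹ * ∑ b, (∑ a, g (E x) a * if b = σ a then e a else 0) * g (E y) b := by
      rw [← E.sum_comp, mul_sum]
      refine sum_congr rfl fun y' _ => ?_
      rw [← E.sum_comp, sum_mul, sum_mul, mul_sum]
      refine sum_congr rfl fun x' _ => ?_
      rw [← hJ]
      change (dd x)⁻¹ * g (E x) (E x') * dd x' * Matrix.J l ℂ x' y' *
        ((dd y)⁻¹ * g (E y) (E y') * dd y') = _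
      ring
    rw [h2, h1, ← hJ]
    have h3 := hdd x
    have h4 := hdd y
    field_simp
  have h5 := SymplecticGroup.det_eq_one hsymp
  have h6 : g' = (Matrix.diagonal fun x => (dd x)⁻¹) * (g.submatrix E E) *
      Matrix.diagonal dd := by
    ext x y
    rw [Matrix.mul_diagonal, Matrix.diagonal_mul]
    rfl
  rw [h6, Matrix.det_mul, Matrix.det_mul, Matrix.det_submatrix_equiv_self, Matrix.det_diagonal,
    Matrix.det_diagonal] at h5
  have h7 : (∏ x, (dd x)⁻¹) * ∏ x, dd x = 1 := by
    rw [← prod_mul_distrib]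
    exact prod_eq_one fun x _ => inv_mul_cancel₀ (hdd x)
  calc g.det = ((∏ x, (dd x)⁻¹) * ∏ x, dd x) * g.det := by rw [h7, one_mul]
    _ = 1 := by rw [← h5]; ring

variable {N : ℕ} {I : Type} {Λ : Labels N I} [DecidableEq I] [Fintype I] {ε : Letter Λ → ℂ}

/-- elements of `D` have determinant one on all `V_i` -/
lemma inD_det_one (hε : ∀ x : Letter Λ, ¬ Λ.orth x.1 = true → ε (dual x) = -ε x)
    (hε0 : ∀ x, ε x ≠ 0) {g : Matrix (Letter Λ) (Letter Λ) ℂ} (hg : InD ε g) (i : I) :
    (Matrix.of fun a b : Fin (Λ.dim i) => g ⟨i, a⟩ ⟨i, b⟩).det = 1 := by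
  by_cases h : Λ.star i ≠ i ∨ Λ.orth i = true
  · exact hg.det i h
  push Not at h
  obtain ⟨h1, h2⟩ := h
  have hdual : ∀ a : Fin (Λ.dim i), dual (⟨i, a⟩ : Letter Λ) = ⟨i, Fin.rev a⟩ := by
    intro a
    refine letter_ext (by rw [dual_fst]; exact h1) ?_
    rw [dual_of_not h2]
    rfl
  have hmk : ∀ a b : Fin (Λ.dim i), (⟨i, a⟩ : Letter Λ) = ⟨i, b⟩ ↔ a = b := by
    intro a b
    constructor
    · intro h
      exact eq_of_heq (Sigma.mk.inj h).2
    · intro h
      rw [h]
  refine det_of_alt (σ := Fin.rev) (e := fun a => ε ⟨i, a⟩) Fin.rev_rev ?_ ?_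
    (fun a => hε0 _) ?_
  · intro a ha
    refine dual_ne hε hε0 (x := (⟨i, a⟩ : Letter Λ)) h2 ?_
    rw [hdual, ha]
  · intro a
    rw [← hdual]
    exact hε _ h2
  · ext a b
    have h3 := congrFun (congrFun hg.form ⟨i, a⟩) ⟨i, b⟩
    simp only [Matrix.mul_apply, Matrix.transpose_apply, GC.form, Matrix.of_apply] at h3
    simp only [Matrix.mul_apply, Matrix.transpose_apply, Matrix.of_apply]
    have h4 : ∀ f : Letter Λ → ℂ, (∀ x, x.1 ≠ i → f x = 0) → ∑ x, f x = ∑ a, f ⟨i, a⟩ := by
      intro f hf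
      rw [Fintype.sum_sigma]
      rw [sum_eq_single i]
      · intro j _ hj
        exact sum_eq_zero fun a _ => hf _ hj
      · intro h; exact absurd (mem_univ i) h
    rw [h4] at h3
    · have h5 : ∀ b' : Fin (Λ.dim i), ∑ x, g ⟨i, a⟩ x *
          (if (⟨i, b'⟩ : Letter Λ) = dual x then ε x else 0) =
          ∑ a', g ⟨i, a⟩ ⟨i, a'⟩ * if b' = Fin.rev a' then ε ⟨i, a'⟩ else 0 := by
        intro b'
        rw [h4]
        · refine sum_congr rfl fun a' _ => ?_
          simp only [hdual, hmk]
        · intro x hx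
          rw [hg.block _ _ (Ne.symm hx), zero_mul]
      simp only [h5, hdual, hmk] at h3
      exact h3
    · intro x hx
      rw [hg.block ⟨i, b⟩ x (Ne.symm hx), mul_zero]

/-- elements of `D` are similitudes -/
lemma inD_similitude (hε : ∀ x : Letter Λ, ¬ Λ.orth x.1 = true → ε (dual x) = -ε x)
    (hε0 : ∀ x, ε x ≠ 0) {g : Matrix (Letter Λ) (Letter Λ) ℂ} (hg : InD ε g) :
    IsSimilitude ε 1 (fun _ => 1) g :=
  ⟨hg.block, by rw [one_smul]; exact hg.form, inD_det_one hε hε0 hg⟩

variable {κ : Type} [Fintype κ] [DecidableEq κ] {W : Type} [AddCommGroup W] [Module ℂ W]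

/-- all combinations of products are invariant under `D` -/
lemma comb_mem_invariants (hε : ∀ x : Letter Λ, ¬ Λ.orth x.1 = true → ε (dual x) = -ε x)
    (hε0 : ∀ x, ε x ≠ 0) {n : ℕ} (d : Fin n → Data Λ κ) (z : Fin n → W) :
    Pool.Agent.Q59.IB.comb (fun j => (d j).val ε) z ∈ invariants ε κ W := by
  intro g hg
  funext w
  have h1 := actW_sum_smul g (fun j => (d j).val ε) z w
  refine h1.trans ?_
  change _ = (∑ j, fun w => (d j).val ε w • z j) w
  rw [Finset.sum_apply]
  refine sum_congr rfl fun j _ => ?_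
  have h2 : act g ((d j).val ε) w = (d j).val ε w := by
    have h3 := act_prodOf (inD_similitude hε hε0 hg) (d j).μ (d j).ν (d j).e w
    rw [prod_const_one, one_pow, one_mul, one_mul] at h3
    exact h3
  rw [h2]

end Pool.Agent.Q59.IB
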