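import Pool.Agent.Q59.IB.Semi

/-!
# Equivariance of the coordinates
-/

namespace Pool.Agent.Q59.IB

open Finset Pool.Agent.Q59.GC Pool.Agent.Q59.VZ

variable {N : ℕ} {I : Type} {Λ : Labels N I} [DecidableEq I] [Fintype I] {ε : Letter Λ → ℂ}

variable {κ : Type} [Fintype κ] [DecidableEq κ] {W : Type} [AddCommGroup W] [Module ℂ W]

/-- the data of a product of determinants and pairings -/
structure Data (Λ : Labels N I) (κ : Type) where
  l : ℕ
  p : ℕ
  μ : Fin l → I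
  ν : Fin p → I
  e : (Σ j : Fin l, Fin (Λ.dim (μ j))) ⊕ (Fin p × Fin 2) ≃ κ

/-- the product -/
noncomputable def Data.val (ε : Letter Λ → ℂ) (d : Data Λ κ) : (κ → Letter Λ) → ℂ :=
  prodOf ε d.μ d.ν d.e

omit [DecidableEq I] [Fintype I] [DecidableEq κ] in
lemma Data.card (d : Data Λ κ) : (∑ j, Λ.dim (d.μ j)) + 2 * d.p = Fintype.card κ := by
  have h := Fintype.card_congr d.e
  rw [Fintype.card_sum, Fintype.card_sigma, Fintype.card_prod, Fintype.card_fin] at h
  simp only [Fintype.card_fin] at h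
  rw [← h, mul_comm]

/-- A basis of the span of the products whose data satisfy `Q`, consisting of such products. -/
lemma exists_data_basis (ε : Letter Λ → ℂ) (Q : Data Λ κ → Prop) :
    ∃ (n : ℕ) (d : Fin n → Data Λ κ), LinearIndependent ℂ (fun j => (d j).val ε) ∧
      (∀ j, Q (d j)) ∧
      ∀ d' : Data Λ κ, Q d' → d'.val ε ∈ Submodule.span ℂ (Set.range fun j => (d j).val ε) := by
  obtain ⟨n, b, hb, hS, hspan⟩ := exists_basis {f | ∃ d : Data Λ κ, Q d ∧ f = d.val ε}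
  choose d hd hbd using hS
  have h1 : (fun j => (d j).val ε) = b := funext fun j => (hbd j).symm
  refine ⟨n, d, h1 ▸ hb, hd, fun d' hd' => ?_⟩
  rw [h1]
  exact hspan ⟨d', hd', rfl⟩

omit [Fintype I] [Fintype κ] [DecidableEq κ] in
/-- The elements of `spanZ` are sums of the `b • z`, `b` in a given basis. -/
lemma exists_coords {Q : Data Λ κ → Prop} {n : ℕ} {d : Fin n → Data Λ κ}
    (hd : ∀ d' : Data Λ κ, Q d' → d'.val ε ∈ Submodule.span ℂ (Set.range fun j => (d j).val ε))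
    {A : Submodule ℂ W} {P : ∀ l : ℕ, (Fin l → I) → W → Prop}
    (hP : ∀ (d' : Data Λ κ) (z : W), P d'.l d'.μ z → z ∈ A ∧ (Q d' ∨ z = 0))
    {x : (κ → Letter Λ) → W} (hx : x ∈ spanZ P ε κ) :
    ∃ z : Fin n → W, (∀ j, z j ∈ A) ∧ x = ∑ j, fun w => (d j).val ε w • z j := by
  refine exists_sum (S := {f | ∃ d : Data Λ κ, Q d ∧ f = d.val ε}) ?_ ?_
  · rintro f ⟨d', hd', rfl⟩
    exact hd d' hd'
  · unfold spanZ at hx
    induction hx using Submodule.span_induction with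
    | mem y hy =>
      obtain ⟨l, p, μ, ν, e, z, hz, rfl⟩ := hy
      obtain ⟨h1, h2⟩ := hP ⟨l, p, μ, ν, e⟩ z hz
      rcases h2 with h2 | h2
      · exact Submodule.subset_span ⟨_, ⟨⟨l, p, μ, ν, e⟩, h2, rfl⟩, z, h1, rfl⟩
      · subst h2
        have h3 : (fun w => prodOf ε μ ν e w • (0 : W)) = 0 := by funext w; simp
        rw [h3]
        exact Submodule.zero_mem _
    | zero => exact Submodule.zero_mem _
    | add y y' _ _ h1 h2 => exact Submodule.add_mem _ h1 h2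
    | smul a y _ h1 => exact Submodule.smul_mem _ _ h1

/-- tensors invariant under `D` are combinations of products -/
lemma inv_mem (hε : ∀ x : Letter Λ, ¬ Λ.orth x.1 = true → ε (dual x) = -ε x)
    (hε0 : ∀ x, ε x ≠ 0) {x : (κ → Letter Λ) → W} (hinv : ∀ g, InD ε g → actW g x = x) :
    x ∈ spanZ (fun _ μ _ => ∀ j, 0 < Λ.dim (μ j)) ε κ :=
  mainZ hε hε0 (T := Empty) (fun t => t.elim) (fun t => t.elim) (fun t => t.elim) 0 hinv
    (fun t => t.elim) _ fun _ _ h _ _ _ _ _ => h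

omit [DecidableEq I] in
/-- the action of a matrix commutes with linear maps of the values -/
lemma actW_sum_smul (g : Matrix (Letter Λ) (Letter Λ) ℂ) {n : ℕ} (b : Fin n → (κ → Letter Λ) → ℂ)
    (z : Fin n → W) (w : κ → Letter Λ) :
    actW g (∑ j, fun w => b j w • z j) w = ∑ j, act g (b j) w • z j := by
  unfold actW act
  simp only [Finset.sum_apply, smul_sum, smul_smul, sum_smul]
  rw [sum_comm]

/-- **Coordinates of equivariant tensors.** Let `γ` act by a similitude on the letters and by `ρ` on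
`W`, and let the basis elements be semi-invariant. If `x = ∑ b • z` is fixed then so are the `b • z`. -/
lemma coord_fixed {n : ℕ} {b : Fin n → (κ → Letter Λ) → ℂ} (hb : LinearIndependent ℂ b)
    {g : Matrix (Letter Λ) (Letter Λ) ℂ} {ψ : Fin n → ℂ} (hψ : ∀ j w, act g (b j) w = ψ j * b j w)
    (ρ : W →ₗ[ℂ] W) {z : Fin n → W}
    (hx : ∀ w, ρ (actW g (∑ j, fun w => b j w • z j) w) = (∑ j, fun w => b j w • z j) w)
    (j : Fin n) : ψ j • ρ (z j) = z j := by
  obtain ⟨c, hc⟩ := exists_coord hb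
  have h1 : ∀ u : Fin n → W, ∑ w, c j w • (∑ k, b k w • u k) = u j := by
    intro u
    simp only [smul_sum, smul_smul]
    rw [sum_comm]
    simp only [← sum_smul]
    rw [sum_eq_single j]
    · rw [hc, if_pos rfl, one_smul]
    · intro k _ hk
      rw [hc, if_neg (Ne.symm hk), zero_smul]
    · intro h; exact absurd (mem_univ j) h
  have h2 : ∀ w, ∑ k, b k w • (ψ k • ρ (z k)) = ∑ k, b k w • z k := by
    intro w
    have h3 := hx w
    rw [actW_sum_smul, map_sum, Finset.sum_apply] at h3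
    rw [← h3]
    refine sum_congr rfl fun k _ => ?_
    rw [map_smul, hψ, smul_smul, mul_comm]
  rw [← h1 (fun k => ψ k • ρ (z k)), ← h1 z]
  exact sum_congr rfl fun w _ => by rw [h2]

/-- **Equivariant tensors invariant under `D`.** -/
theorem fixed_coords (hε : ∀ x : Letter Λ, ¬ Λ.orth x.1 = true → ε (dual x) = -ε x)
    (hε0 : ∀ x, ε x ≠ 0) {x : (κ → Letter Λ) → W} (hinv : ∀ g, InD ε g → actW g x = x)
    {Γ : Type} {mat : Γ → Matrix (Letter Λ) (Letter Λ) ℂ} {cyc : Γ → ℂ} {det : Γ → I → ℂ}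
    (sim : ∀ γ, IsSimilitude ε (cyc γ) (det γ) (mat γ)) {rep : Γ → W →ₗ[ℂ] W}
    (hfix : ∀ γ w, rep γ (actW (mat γ) x w) = x w) :
    ∃ (n : ℕ) (d : Fin n → Data Λ κ) (z : Fin n → W),
      LinearIndependent ℂ (fun j => (d j).val ε) ∧
      (∀ j i, 0 < Λ.dim ((d j).μ i)) ∧
      x = ∑ j, (fun w => (d j).val ε w • z j) ∧
      ∀ j γ, ((∏ i, det γ ((d j).μ i)) * cyc γ ^ (d j).p) • rep γ (z j) = z j := by
  obtain ⟨n, d, hd, hpos, hspan⟩ := exists_data_basis (κ := κ) ε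
    fun d : Data Λ κ => ∀ i, 0 < Λ.dim (d.μ i)
  obtain ⟨z, -, hz⟩ := exists_coords (A := (⊤ : Submodule ℂ W)) hspan
    (P := fun _ μ _ => ∀ j, 0 < Λ.dim (μ j)) (fun _ _ h => ⟨trivial, Or.inl h⟩)
    (inv_mem hε hε0 hinv)
  refine ⟨n, d, z, hd, hpos, hz, fun j γ => ?_⟩
  refine coord_fixed hd (g := mat γ) (ψ := fun j => (∏ i, det γ ((d j).μ i)) * cyc γ ^ (d j).p)
    (fun j w => act_prodOf (sim γ) _ _ _ w) (rep γ) (fun w => ?_) j
  rw [← hz]
  exact hfix γ w

omit [Fintype I] [Fintype κ] [DecidableEq κ] in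
/-- Sums of products with basis elements are in `spanZ`. -/
lemma sum_mem_spanZ {n : ℕ} (d : Fin n → Data Λ κ) (z : Fin n → W)
    {P : ∀ l : ℕ, (Fin l → I) → W → Prop} (h : ∀ j, P (d j).l (d j).μ (z j)) :
    (∑ j, fun w => (d j).val ε w • z j) ∈ spanZ P ε κ :=
  Submodule.sum_mem _ fun j _ => Submodule.subset_span
    ⟨(d j).l, (d j).p, (d j).μ, (d j).ν, (d j).e, z j, h j, rfl⟩

end Pool.Agent.Q59.IB
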