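import Pool.Agent.Q59.VZ.Main
import Pool.Agent.Q59.TW.Total

/-!
# Sums of binary forms: labels, types, total characters
-/

namespace Pool.Agent.Q59.IB.Forms

open Pool.Agent.H916R2 Pool.Agent.Q59.GC Pool.Agent.Q59.VZ Pool.Agent.Q59.TW

variable {N : ℕ} {J : Type}

/-- The character `a` (with `d * a = 0`) has the exact order `d`, and `d = 4` or `d = 6`: in this case
the eigenspace of `a` in the first cohomology of the curve `z ^ d = f (x, y)` is isotrivial. -/
def IsCM (d : ℕ) (a : ZMod N) : Prop := (d = 4 ∧ 2 * a ≠ 0) ∨ (d = 6 ∧ 2 * a ≠ 0 ∧ 3 * a ≠ 0)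

instance (d : ℕ) (a : ZMod N) : Decidable (IsCM d a) := by unfold IsCM; infer_instance

/-- The number of the spaces `V_(j, a, e)`: one, but `d - 2` in the isotrivial case. -/
def copies (d : ℕ) (a : ZMod N) : ℕ := if IsCM d a then d - 2 else 1

/-- The labels of the spaces `V_i`: `i = (j, a, e)`, where `j` is one of the forms, `a` is a nonzero
residue modulo `N` which is killed by the degree `deg j` of the form `j`, and `e = 0` except in the
isotrivial case, where `e` runs through `deg j - 2` values. -/
abbrev Label (N : ℕ) (deg : J → ℕ) : Type :=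
  {i : J × ZMod N × Fin 4 // i.2.1 ≠ 0 ∧ (deg i.1 : ZMod N) * i.2.1 = 0 ∧
    (i.2.2 : ℕ) < copies (deg i.1) i.2.1}

/-- the degree of the form -/
abbrev dg {deg : J → ℕ} (i : Label N deg) : ℕ := deg i.1.1

/-- the character -/
abbrev ch {deg : J → ℕ} (i : Label N deg) : ZMod N := i.1.2.1

lemma isCM_neg (d : ℕ) (a : ZMod N) : IsCM d (-a) ↔ IsCM d a := by
  unfold IsCM
  rw [mul_neg, mul_neg, neg_ne_zero, neg_ne_zero]

lemma copies_neg (d : ℕ) (a : ZMod N) : copies d (-a) = copies d a := by
  unfold copies
  simp only [isCM_neg]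

lemma star_mem {deg : J → ℕ} (i : Label N deg) :
    -ch i ≠ 0 ∧ (dg i : ZMod N) * -ch i = 0 ∧ (i.1.2.2 : ℕ) < copies (dg i) (-ch i) := by
  refine ⟨neg_ne_zero.mpr i.2.1, ?_, ?_⟩
  · rw [mul_neg, i.2.2.1, neg_zero]
  · rw [copies_neg]
    exact i.2.2.2

/-- The label of the dual space. -/
def starLabel {deg : J → ℕ} (i : Label N deg) : Label N deg :=
  ⟨(i.1.1, -i.1.2.1, i.1.2.2), star_mem i⟩

/-- The dimension of `V_i`. -/
def dimOf {deg : J → ℕ} (i : Label N deg) : ℕ := if IsCM (dg i) (ch i) then 1 else dg i - 2

/-- The exponents of `V_i`. -/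
def exOf {deg : J → ℕ} (i : Label N deg) : Multiset (ZMod N) :=
  if IsCM (dg i) (ch i) then {ch i, 2 * ch i, (dg i - 3 : ℕ) * ch i} else
    Multiset.replicate (dg i) (ch i)

lemma starLabel_starLabel {deg : J → ℕ} (i : Label N deg) : starLabel (starLabel i) = i :=
  Subtype.ext (Prod.ext rfl (Prod.ext (neg_neg _) rfl))

lemma dimOf_star {deg : J → ℕ} (i : Label N deg) : dimOf (starLabel i) = dimOf i := by
  change (if IsCM (dg i) (-ch i) then 1 else dg i - 2) = _
  simp only [isCM_neg]
  rfl

lemma dimOf_eq {deg : J → ℕ} (hdeg : ∀ j, 2 ≤ deg j) (i : Label N deg) :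
    (dimOf i : ℤ) = Multiset.card (exOf i) + 2 * (-1) := by
  unfold dimOf exOf
  split_ifs
  · rfl
  · rw [Multiset.card_replicate]
    have : 2 ≤ dg i := hdeg i.1.1
    omega

lemma exOf_ne {deg : J → ℕ} (i : Label N deg) : (0 : ZMod N) ∉ exOf i := by
  intro h
  unfold exOf at h
  split_ifs at h with hc
  · rcases hc with ⟨h4, h2⟩ | ⟨h6, h2, h3⟩
    · rw [h4] at h
      simp only [Multiset.insert_eq_cons, Multiset.mem_cons, Multiset.mem_singleton] at h
      rcases h with h | h | h
      · exact i.2.1 h.symm
      · exact h2 h.symm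
      · exact i.2.1 (by simpa using h.symm)
    · rw [h6] at h
      simp only [Multiset.insert_eq_cons, Multiset.mem_cons, Multiset.mem_singleton] at h
      rcases h with h | h | h
      · exact i.2.1 h.symm
      · exact h2 h.symm
      · exact h3 (by simpa using h.symm)
  · exact i.2.1 (Multiset.eq_of_mem_replicate h).symm

lemma exOf_sum {deg : J → ℕ} (i : Label N deg) : (exOf i).sum = 0 := by
  unfold exOf
  split_ifs with hc
  · have h0 := i.2.2.1
    simp only [Multiset.insert_eq_cons, Multiset.sum_cons, Multiset.sum_singleton]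
    rcases hc with ⟨h4, _⟩ | ⟨h6, _⟩
    · rw [show deg i.1.1 = 4 from h4] at h0
      rw [h4]
      push_cast at h0 ⊢
      linear_combination h0
    · rw [show deg i.1.1 = 6 from h6] at h0
      rw [h6]
      push_cast at h0 ⊢
      linear_combination h0
  · rw [Multiset.sum_replicate, nsmul_eq_mul]
    exact i.2.2.1

lemma exOf_star {deg : J → ℕ} (i : Label N deg) :
    exOf (starLabel i) = (exOf i).map fun a => -a := by
  change (if IsCM (dg i) (-ch i) then {-ch i, 2 * -ch i, (dg i - 3 : ℕ) * -ch i} else
    Multiset.replicate (dg i) (-ch i)) = _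
  unfold exOf
  simp only [isCM_neg]
  split_ifs
  · simp only [Multiset.insert_eq_cons, Multiset.map_cons, Multiset.map_singleton, mul_neg]
  · rw [Multiset.map_replicate]

/-- The spaces `V_i`, `i = (j, a, e)`. For `e = 0` and outside the isotrivial case this is the
eigenspace of `a` in the first cohomology of the curve `z ^ d = f_j (x, y)`, `d = deg j`; it has the
dimension `d - 2` and the local exponents `a` at the `d` zeros of `f_j`, and is dual to
`V_(j, -a, 0)`. In the isotrivial case the eigenspace is the sum of the `d - 2` lines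
`V_(j, a, e)`, which are isomorphic to the line with the exponents `a, 2 a, (d - 3) a` in the
first cohomology of a Fermat curve. -/
def labels [NeZero N] (deg : J → ℕ) (hdeg : ∀ j, 2 ≤ deg j) : Labels N (Label N deg) where
  star := starLabel
  star_star := starLabel_starLabel
  orth _ := false
  orth_star _ h := absurd h (by decide)
  dim := dimOf
  dim_star := dimOf_star
  ex := exOf
  half _ := -1
  dim_eq := dimOf_eq hdeg
  ex_ne := exOf_ne
  ex_sum := exOf_sum
  ex_star := exOf_star

/-- The representative in `[0, 1)` of `a / N`. -/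
noncomputable def frac (a : ZMod N) : ℚ := (a.val : ℚ) / N

/-- The contribution of a letter of `V_i`, `i = (j, a, e)`, to the Hodge type at the embedding given
by the unit `t`: the average type on `V_i`, which is `(d ⟨t a⟩ - 1) / (d - 2)` outside the isotrivial
case, and the contribution `⟨- t a⟩` of the entry `- a` of the character of the Fermat variety. -/
noncomputable def letterType [NeZero N] (deg : J → ℕ) (hdeg : ∀ j, 2 ≤ deg j) (t : ZMod N)
    (i : Label N deg) : ℚ :=
  ((((labels deg hdeg).ex i).map fun a => frac (t * a)).sum - 1) / (labels deg hdeg).dim i +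
    frac (-(t * ch i))

/-- A tensor with values in `W` is a Hodge tensor if it is invariant under `D` and has the total type
`(c, c)` at all embeddings; the family `F` describes the types in `W`, and on the invariants of `D`
the Hodge operator on `V_i` can be replaced by its average eigenvalue. -/
structure IsHodgeTensor [NeZero N] [Fintype J] [DecidableEq J] {deg : J → ℕ}
    {hdeg : ∀ j, 2 ≤ deg j} (ε : Letter (labels (N := N) deg hdeg) → ℂ)
    {W : Type} [AddCommGroup W] [Module ℂ W] (F : (ZMod N)ˣ → ℚ → Submodule ℂ W) (c : ℚ) {s : ℕ}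
    (x : (Fin s → Letter (labels (N := N) deg hdeg)) → W) : Prop where
  inv : ∀ g, InD ε g → actW g x = x
  type : ∀ (t : (ZMod N)ˣ) (w : Fin s → Letter (labels (N := N) deg hdeg)),
    x w ∈ F t (c - ∑ k, letterType deg hdeg (t : ZMod N) (w k).1)

/-- Nonzero elements of `W` which are of a pure type `(., q t)` at all embeddings `t` have the same
type at all embeddings. -/
def NoCM {W : Type} [AddCommGroup W] [Module ℂ W] (F : (ZMod N)ˣ → ℚ → Submodule ℂ W) :
    Prop :=
  ∀ (q : (ZMod N)ˣ → ℚ) (z : W), z ≠ 0 → (∀ t, z ∈ F t (q t)) → ∀ t t', q t = q t'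

/-- Membership in the family generated by the pairs and the standard characters, in the degree `m`
if `m` is even and in the degree `2 * m` if `m` is odd. -/
def StandardLine (m : ℕ) (s : Multiset (ZMod m)) : Prop :=
  (Even m → Generated m (fun _ => False) s) ∧
    (Odd m → Generated (2 * m) (fun _ => False)
      (s.map fun a => ((2 * a.val : ℕ) : ZMod (2 * m))))

/-- The character of the line of the Fermat variety which belongs to the product of the determinants
of the spaces `V_i`, `i = μ k = (j, a, e)`: the exponents of the determinant of `V_i`, and the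
entries `- a` of its letters. -/
def total [NeZero N] (deg : J → ℕ) (hdeg : ∀ j, 2 ≤ deg j) {l : ℕ} (μ : Fin l → Label N deg) :
    Multiset (ZMod N) :=
  ∑ k, ((labels deg hdeg).ex (μ k) +
    Multiset.replicate ((labels deg hdeg).dim (μ k)) (-ch (μ k)))

section

variable [NeZero N] {deg : J → ℕ} {hdeg : ∀ j, 2 ≤ deg j}

/-- one summand of the total character -/
def piece (deg : J → ℕ) (hdeg : ∀ j, 2 ≤ deg j) (i : Label N deg) : Multiset (ZMod N) :=
  (labels deg hdeg).ex i + Multiset.replicate ((labels deg hdeg).dim i) (-ch i)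

lemma zero_notMem_piece (i : Label N deg) : (0 : ZMod N) ∉ piece deg hdeg i := by
  intro h
  rcases Multiset.mem_add.mp h with h | h
  · exact (labels deg hdeg).ex_ne i h
  · exact neg_ne_zero.mpr i.2.1 (Multiset.eq_of_mem_replicate h).symm

omit [NeZero N] in
lemma order_of {a : ZMod N} {n : ℕ} (h : (n : ZMod N) * a = 0)
    (h' : ∀ p : ℕ, p.Prime → p ∣ n → ((n / p : ℕ) : ZMod N) * a ≠ 0) (hn : 0 < n) :
    addOrderOf a = n := by
  refine addOrderOf_eq_of_nsmul_and_div_prime_nsmul hn (by rw [nsmul_eq_mul]; exact h) ?_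
  intro p hp hpn
  rw [nsmul_eq_mul]
  exact h' p hp hpn

lemma shape_piece (i : Label N deg) : Shape (piece deg hdeg i) := by
  unfold piece
  have ha := i.2.1
  have h0 := i.2.2.1
  by_cases hc : IsCM (dg i) (ch i)
  · have e1 : (labels deg hdeg).ex i = {ch i, 2 * ch i, (dg i - 3 : ℕ) * ch i} := if_pos hc
    have e2 : (labels deg hdeg).dim i = 1 := if_pos hc
    rw [e1, e2, Multiset.replicate_one]
    rcases hc with ⟨h4, h2⟩ | ⟨h6, h2, h3⟩
    · have h0' : (4 : ZMod N) * ch i = 0 := by
        have := h0
        rw [show deg i.1.1 = 4 from h4] at this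
        exact_mod_cast this
      have e3 : ((dg i - 3 : ℕ) : ZMod N) * ch i = ch i := by rw [h4]; simp
      rw [e3]
      have e4 : ({ch i, 2 * ch i, ch i} : Multiset (ZMod N)) + {-ch i} =
          ({ch i} + {2 * ch i}) + ({ch i} + ({ch i} : Multiset (ZMod N)).map fun a => -a) := by
        rw [Multiset.map_singleton]
        simp only [Multiset.insert_eq_cons, ← Multiset.singleton_add]
        abel
      rw [e4]
      refine (Shape.special (Or.inr (order_of (n := 4) (by exact_mod_cast h0') ?_ (by norm_num)))
        h2 (by linear_combination h0')).add (Shape.pairs ?_)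
      · intro p hp hp4
        have : p = 2 := (Nat.prime_dvd_prime_iff_eq hp Nat.prime_two).mp
          (hp.dvd_of_dvd_pow (show p ∣ 2 ^ 2 from hp4))
        subst this
        norm_num
        exact h2
      · intro h
        exact ha (Multiset.mem_singleton.mp h).symm
    · have h0' : (6 : ZMod N) * ch i = 0 := by
        have := h0
        rw [show deg i.1.1 = 6 from h6] at this
        exact_mod_cast this
      have e3 : ((dg i - 3 : ℕ) : ZMod N) * ch i = 3 * ch i := by rw [h6]; norm_num
      rw [e3]
      have e4 : ({ch i, 2 * ch i, 3 * ch i} : Multiset (ZMod N)) + {-ch i} =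
          ({2 * ch i} + {3 * ch i}) + ({ch i} + ({ch i} : Multiset (ZMod N)).map fun a => -a) := by
        rw [Multiset.map_singleton]
        simp only [Multiset.insert_eq_cons, ← Multiset.singleton_add]
        abel
      rw [e4]
      refine (Shape.special (Or.inl (order_of (n := 3) ?_ ?_ (by norm_num)))
        h3 (by linear_combination h0')).add (Shape.pairs ?_)
      · push_cast
        linear_combination h0'
      · intro p hp hp3
        have : p = 3 := (Nat.prime_dvd_prime_iff_eq hp Nat.prime_three).mp hp3
        subst this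
        norm_num
        exact h2
      · intro h
        exact ha (Multiset.mem_singleton.mp h).symm
  · have e1 : (labels deg hdeg).ex i = Multiset.replicate (dg i) (ch i) := if_neg hc
    have e2 : (labels deg hdeg).dim i = dg i - 2 := if_neg hc
    rw [e1, e2]
    obtain ⟨n, hn⟩ := Nat.exists_eq_add_of_le (hdeg i.1.1)
    have hn' : dg i = 2 + n := hn
    rw [hn', Nat.add_sub_cancel_left, Multiset.replicate_add]
    have e3 : Multiset.replicate 2 (ch i) + Multiset.replicate n (ch i) +
        Multiset.replicate n (-ch i) = (({ch i} : Multiset (ZMod N)) + {ch i}) +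
          (Multiset.replicate n (ch i) + (Multiset.replicate n (ch i)).map fun a => -a) := by
      rw [Multiset.map_replicate, ← add_assoc]
      rfl
    rw [e3]
    refine (Shape.double ?_).add (Shape.pairs ?_)
    · intro h
      exact ha (Multiset.mem_singleton.mp h).symm
    · intro h
      exact ha (Multiset.eq_of_mem_replicate h).symm

/-- the offset -/
noncomputable def off (deg : J → ℕ) (hdeg : ∀ j, 2 ≤ deg j) (t : (ZMod N)ˣ) (i : Label N deg) : ℚ :=
  ((piece deg hdeg i).map fun a => (saw ((t : ZMod N) * a) : ℚ)).sum / (2 * N)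

omit [NeZero N] in
lemma unit_ne {t : (ZMod N)ˣ} {a : ZMod N} (ha : a ≠ 0) : (t : ZMod N) * a ≠ 0 := fun h =>
  ha ((t.isUnit.mul_right_eq_zero).mp h)

lemma saw_frac {a : ZMod N} (ha : a ≠ 0) : (saw a : ℚ) / (2 * N) = frac a - 1 / 2 := by
  have hN : (N : ℚ) ≠ 0 := by exact_mod_cast NeZero.ne N
  unfold saw frac
  rw [if_neg ha]
  push_cast
  field_simp

lemma sum_saw (t : (ZMod N)ˣ) {s : Multiset (ZMod N)} (h : (0 : ZMod N) ∉ s) :
    (s.map fun a => (saw ((t : ZMod N) * a) : ℚ)).sum / (2 * N) =
      (s.map fun a => frac ((t : ZMod N) * a)).sum - s.card / 2 := by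
  induction s using Multiset.induction_on with
  | empty => simp
  | cons a s ih =>
    have ha : a ≠ 0 := fun h' => h (by rw [h']; exact Multiset.mem_cons_self _ _)
    rw [Multiset.map_cons, Multiset.sum_cons, add_div, ih fun h' => h (Multiset.mem_cons_of_mem h'),
      saw_frac (unit_ne ha), Multiset.map_cons, Multiset.sum_cons, Multiset.card_cons]
    push_cast
    ring

lemma letterType_eq (t : (ZMod N)ˣ) (i : Label N deg) (h : 0 < (labels deg hdeg).dim i) :
    letterType deg hdeg (t : ZMod N) i =
      1 + off deg hdeg t i / ((labels deg hdeg).dim i : ℚ) := by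
  have h0 : (((labels deg hdeg).dim i : ℕ) : ℚ) ≠ 0 := by exact_mod_cast h.ne'
  have h1 := (labels deg hdeg).dim_eq i
  have h2 : (((labels deg hdeg).dim i : ℕ) : ℚ) = Multiset.card ((labels deg hdeg).ex i) - 2 := by
    have h3 : (labels deg hdeg).half i = -1 := rfl
    rw [h3] at h1
    have h4 : ((((labels deg hdeg).dim i : ℕ) : ℤ) : ℚ) =
        ((Multiset.card ((labels deg hdeg).ex i) + 2 * -1 : ℤ) : ℚ) := by rw [h1]
    push_cast at h4
    rw [h4]
    ring
  unfold off letterType
  rw [sum_saw t (zero_notMem_piece i)]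
  unfold piece
  rw [Multiset.map_add, Multiset.sum_add, Multiset.map_replicate, Multiset.sum_replicate,
    nsmul_eq_mul, Multiset.card_add, Multiset.card_replicate, mul_neg]
  push_cast
  field_simp
  rw [h2]
  ring

lemma total_eq {l : ℕ} (μ : Fin l → Label N deg) :
    total deg hdeg μ = ∑ k, piece deg hdeg (μ k) := rfl

lemma zero_notMem_total {l : ℕ} (μ : Fin l → Label N deg) : (0 : ZMod N) ∉ total deg hdeg μ := by
  rw [total_eq]
  intro h
  rw [Multiset.mem_sum] at h
  obtain ⟨k, _, hk⟩ := h
  exact zero_notMem_piece _ hk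

lemma card_piece (i : Label N deg) : Even (Multiset.card (piece deg hdeg i)) := by
  have h1 := (labels deg hdeg).dim_eq i
  have h3 : (labels deg hdeg).half i = -1 := rfl
  unfold piece
  rw [Multiset.card_add, Multiset.card_replicate]
  rw [h3] at h1
  exact ⟨(labels deg hdeg).dim i + 1, by omega⟩

lemma sum_off (t : (ZMod N)ˣ) {l : ℕ} (μ : Fin l → Label N deg) :
    ∑ k, off deg hdeg t (μ k) =
      (((total deg hdeg μ).map fun a => saw ((t : ZMod N) * a)).sum : ℤ) / (2 * N) := by
  rw [total_eq]
  let φ : Multiset (ZMod N) →+ ℚ :=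
    ⟨⟨fun s => (((s.map fun a => saw ((t : ZMod N) * a)).sum : ℤ) : ℚ), by simp⟩,
      fun s s' => by simp⟩
  have h1 := map_sum φ (fun k => piece deg hdeg (μ k)) Finset.univ
  have h2 : ∀ s : Multiset (ZMod N), φ s = (s.map fun a => (saw ((t : ZMod N) * a) : ℚ)).sum := by
    intro s
    have h4 := map_multiset_sum (Int.castRingHom ℚ) (s.map fun a => saw ((t : ZMod N) * a))
    rw [Multiset.map_map] at h4
    exact h4
  have h3 : (((∑ k, piece deg hdeg (μ k)).map fun a => saw ((t : ZMod N) * a)).sum : ℚ) =
      ∑ k, φ (piece deg hdeg (μ k)) := h1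
  rw [h3, Finset.sum_div]
  refine Finset.sum_congr rfl fun k _ => ?_
  rw [h2]
  rfl

/-- the sum of the offsets at the opposite embedding -/
lemma off_anti (t : (ZMod N)ˣ) {l : ℕ} (μ : Fin l → Label N deg) :
    ∑ j, off deg hdeg (-t) (μ j) = - ∑ j, off deg hdeg t (μ j) := by
  rw [sum_off, sum_off, ← neg_div]
  congr 1
  have h1 : ((total deg hdeg μ).map fun a => saw (((-t : (ZMod N)ˣ) : ZMod N) * a)).sum =
      - ((total deg hdeg μ).map fun a => saw ((t : ZMod N) * a)).sum := by
    rw [← Multiset.sum_map_neg]
    congr 1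
    refine Multiset.map_congr rfl fun a _ => ?_
    rw [Units.val_neg, neg_mul, saw_neg]
  rw [h1]
  push_cast
  rfl

/-- total characters whose offsets vanish belong to standard lines -/
lemma standard_of_off {l : ℕ} {μ : Fin l → Label N deg}
    (hoff : ∀ t : (ZMod N)ˣ, ∑ j, off deg hdeg t (μ j) = 0) :
    total deg hdeg μ = 0 ∨ StandardLine N (total deg hdeg μ) := by
  have hN : (N : ℚ) ≠ 0 := by exact_mod_cast NeZero.ne N
  by_cases hne : total deg hdeg μ = 0
  · exact Or.inl hne
  right
  have hshape : Shape (total deg hdeg μ) := Shape.sum _ _ fun k _ => shape_piece _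
  have heven : Even (Multiset.card (total deg hdeg μ)) := by
    rw [total_eq, Multiset.card_sum]
    exact Finset.even_sum _ fun k _ => card_piece _
  have hH : IsHodge N (total deg hdeg μ) := by
    refine isHodge_of_saw (zero_notMem_total μ) heven fun t => ?_
    have h1 := hoff t
    rw [sum_off, div_eq_zero_iff] at h1
    rcases h1 with h1 | h1
    · exact_mod_cast h1
    · exact absurd h1 (by positivity)
  refine ⟨fun _ => hshape.generated hH hne _, fun _ => ?_⟩
  have hNz2 : NeZero (2 * N) := ⟨by have := NeZero.ne N; omega⟩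
  refine (hshape.map_iota (m := 2 * N) rfl).generated (IsHodge.iota rfl hH) ?_ _
  intro h
  exact hne (Multiset.map_eq_zero.mp h)

end

/-- **The Hodge conjecture for products of hypersurfaces `f_1 (x_1, y_1) + ... + f_r (x_r, y_r) = 0`.** -/
theorem result (N : ℕ) [NeZero N] (J : Type) [Fintype J] [DecidableEq J] (deg : J → ℕ)
    (hdeg : ∀ j, 2 ≤ deg j) (ε : Letter (labels (N := N) deg hdeg) → ℂ)
    (hε : ∀ x, ε (dual x) = -ε x) (hε0 : ∀ x, ε x ≠ 0) (W : Type) [AddCommGroup W] [Module ℂ W]
    (F : (ZMod N)ˣ → ℚ → Submodule ℂ W) (hF : NoCM F) (c : ℚ) (s : ℕ)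
    (x : (Fin s → Letter (labels (N := N) deg hdeg)) → W) (hx : IsHodgeTensor ε F c x) :
    x ∈ spanZ (fun _ μ z => (∀ t : (ZMod N)ˣ, z ∈ F t (c - s)) ∧
      (total deg hdeg μ = 0 ∨ StandardLine N (total deg hdeg μ))) ε (Fin s) := by
  classical
  have hN : (N : ℚ) ≠ 0 := by exact_mod_cast NeZero.ne N
  have key : x ∈ spanZ (fun (l : ℕ) (μ : Fin l → Label N deg) z => z = 0 ∨
      ((∀ t : (ZMod N)ˣ, z ∈ F t (c - s)) ∧
      (total deg hdeg μ = 0 ∨ StandardLine N (total deg hdeg μ)))) ε (Fin s) := by
    refine mainZ (Λ := labels deg hdeg) (fun x _ => hε x) hε0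
      (fun (t : (ZMod N)ˣ) i => off deg hdeg t i)
      (fun t i => ?_) F (c - s) hx.inv (fun t w => ?_) _ (fun l μ hpos _ _ _ z hz => ?_)
    · unfold off
      rw [← neg_div]
      congr 1
      have h1 : piece deg hdeg ((labels deg hdeg).star i) =
          (piece deg hdeg i).map fun a => -a := by
        unfold piece
        rw [(labels deg hdeg).ex_star, (labels deg hdeg).dim_star, Multiset.map_add,
          Multiset.map_replicate]
        rfl
      rw [h1, Multiset.map_map, ← Multiset.sum_map_neg]
      congr 1
      refine Multiset.map_congr rfl fun a _ => ?_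
      simp only [Function.comp_apply, mul_neg, saw_neg]
      push_cast
      rfl
    · have h1 := hx.type t w
      have h2 : ∑ k, letterType deg hdeg (t : ZMod N) (w k).1 =
          s + ∑ k, off deg hdeg t (w k).1 / ((labels (N := N) deg hdeg).dim (w k).1 : ℚ) := by
        have h3 : ∀ k, letterType deg hdeg (t : ZMod N) (w k).1 =
            1 + off deg hdeg t (w k).1 / ((labels (N := N) deg hdeg).dim (w k).1 : ℚ) := fun k =>
          letterType_eq t (w k).1 ((Nat.zero_le _).trans_lt (w k).2.2)
        rw [Finset.sum_congr rfl fun k _ => h3 k, Finset.sum_add_distrib, Finset.sum_const,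
          Finset.card_univ, Fintype.card_fin, nsmul_eq_mul, mul_one]
      rw [h2, ← sub_sub] at h1
      exact h1
    · by_cases hz0 : z = 0
      · exact Or.inl hz0
      right
      have hconst := hF (fun t => c - s - ∑ j, off deg hdeg t (μ j)) z hz0 hz
      have hanti : ∀ t : (ZMod N)ˣ, ∑ j, off deg hdeg (-t) (μ j) =
          - ∑ j, off deg hdeg t (μ j) := by
        intro t
        rw [sum_off, sum_off, ← neg_div]
        congr 1
        have h1 : ((total deg hdeg μ).map fun a => saw (((-t : (ZMod N)ˣ) : ZMod N) * a)).sum =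
            - ((total deg hdeg μ).map fun a => saw ((t : ZMod N) * a)).sum := by
          rw [← Multiset.sum_map_neg]
          congr 1
          refine Multiset.map_congr rfl fun a _ => ?_
          rw [Units.val_neg, neg_mul, saw_neg]
        rw [h1]
        push_cast
        rfl
      have hoff : ∀ t : (ZMod N)ˣ, ∑ j, off deg hdeg t (μ j) = 0 := by
        intro t
        have h1 := hconst t (-t)
        rw [hanti] at h1
        linarith
      refine ⟨fun t => ?_, ?_⟩
      · have h1 := hz t
        rw [hoff t, sub_zero] at h1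
        exact h1
      · by_cases hne : total deg hdeg μ = 0
        · exact Or.inl hne
        right
        have hshape : Shape (total deg hdeg μ) := Shape.sum _ _ fun k _ => shape_piece _
        have heven : Even (Multiset.card (total deg hdeg μ)) := by
          rw [total_eq, Multiset.card_sum]
          exact Finset.even_sum _ fun k _ => card_piece _
        have hH : IsHodge N (total deg hdeg μ) := by
          refine isHodge_of_saw (zero_notMem_total μ) heven fun t => ?_
          have h1 := hoff t
          rw [sum_off, div_eq_zero_iff] at h1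
          rcases h1 with h1 | h1
          · exact_mod_cast h1
          · exact absurd h1 (by positivity)
        refine ⟨fun _ => hshape.generated hH hne _, fun _ => ?_⟩
        have hNz2 : NeZero (2 * N) := ⟨by have := NeZero.ne N; omega⟩
        refine (hshape.map_iota (m := 2 * N) rfl).generated (IsHodge.iota rfl hH) ?_ _
        intro h
        exact hne (Multiset.map_eq_zero.mp h)
  -- split off the vanishing elements
  refine (Submodule.span_le.mpr ?_ :
    spanZ (fun (l : ℕ) (μ : Fin l → Label N deg) z => z = 0 ∨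
      ((∀ t : (ZMod N)ˣ, z ∈ F t (c - s)) ∧
      (total deg hdeg μ = 0 ∨ StandardLine N (total deg hdeg μ)))) ε (Fin s) ≤ _) key
  rintro y ⟨l, p, μ, ν, e, z, hz | hz, rfl⟩
  · subst hz
    have h1 : (fun w => prodOf ε μ ν e w • (0 : W)) = 0 := by
      funext w; simp
    rw [h1]
    exact Submodule.zero_mem _
  · exact Submodule.subset_span ⟨l, p, μ, ν, e, z, hz, rfl⟩

end Pool.Agent.Q59.IB.Forms
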