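import Pool.Agent.Q59.IB.Equi

/-!
# The space of invariant tensors with values in `W` is a power of `W`
-/

namespace Pool.Agent.Q59.IB

open Finset Pool.Agent.Q59.GC Pool.Agent.Q59.VZ

variable {N : ℕ} {I : Type} {Λ : Labels N I} [DecidableEq I] [Fintype I]

variable {κ : Type} [Fintype κ] [DecidableEq κ] {W : Type} [AddCommGroup W] [Module ℂ W]

/-- The tensors with values in `W` which are invariant under `D`. -/
def invariants (ε : Letter Λ → ℂ) (κ : Type) [Fintype κ] [DecidableEq κ] (W : Type)
    [AddCommGroup W] [Module ℂ W] : Submodule ℂ ((κ → Letter Λ) → W) where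
  carrier := {x | ∀ g, InD ε g → actW g x = x}
  zero_mem' g _ := by
    funext w
    unfold actW
    simp
  add_mem' {x y} hx hy g hg := by
    funext w
    have h1 := congrFun (hx g hg) w
    have h2 := congrFun (hy g hg) w
    unfold actW at h1 h2 ⊢
    rw [Pi.add_apply, ← h1, ← h2, ← sum_add_distrib]
    exact sum_congr rfl fun v _ => by rw [Pi.add_apply, smul_add]
  smul_mem' a x hx g hg := by
    funext w
    have h1 := congrFun (hx g hg) w
    unfold actW at h1 ⊢
    rw [Pi.smul_apply, ← h1, smul_sum]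
    exact sum_congr rfl fun v _ => by rw [Pi.smul_apply, smul_comm]

lemma mem_invariants {ε : Letter Λ → ℂ} {x : (κ → Letter Λ) → W} :
    x ∈ invariants ε κ W ↔ ∀ g, InD ε g → actW g x = x := Iff.rfl

/-- The operator on tensors given by a matrix and a linear map of the values. -/
noncomputable def theta (κ : Type) [Fintype κ] [DecidableEq κ]
    (g : Matrix (Letter Λ) (Letter Λ) ℂ) (ρ : W →ₗ[ℂ] W) :
    ((κ → Letter Λ) → W) →ₗ[ℂ] ((κ → Letter Λ) → W) where
  toFun x w := ρ (actW g x w)
  map_add' x y := by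
    funext w
    rw [Pi.add_apply, ← map_add]
    congr 1
    unfold actW
    rw [← sum_add_distrib]
    exact sum_congr rfl fun v _ => by rw [Pi.add_apply, smul_add]
  map_smul' a x := by
    funext w
    rw [Pi.smul_apply, RingHom.id_apply, ← map_smul]
    congr 1
    unfold actW
    rw [smul_sum]
    exact sum_congr rfl fun v _ => by rw [Pi.smul_apply, smul_comm]

/-- The tensor with given coordinates. -/
noncomputable def comb {n : ℕ} (b : Fin n → (κ → Letter Λ) → ℂ) :
    (Fin n → W) →ₗ[ℂ] ((κ → Letter Λ) → W) where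
  toFun z := ∑ j, fun w => b j w • z j
  map_add' z z' := by
    rw [← sum_add_distrib]
    refine sum_congr rfl fun j _ => ?_
    funext w
    rw [Pi.add_apply, Pi.add_apply, smul_add]
  map_smul' a z := by
    rw [RingHom.id_apply, smul_sum]
    refine sum_congr rfl fun j _ => ?_
    funext w
    rw [Pi.smul_apply, Pi.smul_apply, smul_comm]

omit [DecidableEq I] [Fintype I] [Fintype κ] [DecidableEq κ] in
lemma comb_apply {n : ℕ} (b : Fin n → (κ → Letter Λ) → ℂ) (z : Fin n → W) :
    comb b z = ∑ j, fun w => b j w • z j := rfl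

omit [DecidableEq I] in
/-- coordinates are contractions -/
lemma comb_coord {n : ℕ} {b : Fin n → (κ → Letter Λ) → ℂ} {c : Fin n → (κ → Letter Λ) → ℂ}
    (hc : ∀ j k, ∑ w, c j w * b k w = if j = k then 1 else 0) (z : Fin n → W) (j : Fin n) :
    ∑ w, c j w • comb b z w = z j := by
  simp only [comb_apply, Finset.sum_apply, smul_sum, smul_smul]
  rw [sum_comm]
  simp only [← sum_smul]
  rw [sum_eq_single j]
  · rw [hc, if_pos rfl, one_smul]
  · intro k _ hk
    rw [hc, if_neg (Ne.symm hk), zero_smul]
  · intro h; exact absurd (mem_univ j) h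

lemma comb_injective {n : ℕ} {b : Fin n → (κ → Letter Λ) → ℂ} (hb : LinearIndependent ℂ b) :
    Function.Injective (comb (W := W) b) := by
  obtain ⟨c, hc⟩ := exists_coord hb
  intro z z' h
  funext j
  rw [← comb_coord hc z j, h, comb_coord hc]

omit [DecidableEq I] in
/-- the operator in coordinates -/
lemma theta_comb {n : ℕ} {b : Fin n → (κ → Letter Λ) → ℂ} {g : Matrix (Letter Λ) (Letter Λ) ℂ}
    {ψ : ℂ} (hψ : ∀ j w, act g (b j) w = ψ * b j w) (ρ : W →ₗ[ℂ] W) (z : Fin n → W) :
    theta κ g ρ (comb b z) = comb b fun j => (ψ • ρ) (z j) := by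
  funext w
  change ρ (actW g (∑ j, fun w => b j w • z j) w) = (∑ j, fun w => b j w • (ψ • ρ) (z j)) w
  rw [actW_sum_smul, map_sum, Finset.sum_apply]
  refine sum_congr rfl fun j _ => ?_
  rw [map_smul, hψ, LinearMap.smul_apply, smul_smul, mul_comm]

/-- powers of the operator minus one -/
lemma theta_pow {n : ℕ} {b : Fin n → (κ → Letter Λ) → ℂ} {g : Matrix (Letter Λ) (Letter Λ) ℂ}
    {ψ : ℂ} (hψ : ∀ j w, act g (b j) w = ψ * b j w) (ρ : W →ₗ[ℂ] W) (k : ℕ) (z : Fin n → W) :
    ((theta κ g ρ - 1) ^ k) (comb b z) = comb b fun j => ((ψ • ρ - 1) ^ k) (z j) := by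
  induction k generalizing z with
  | zero => rfl
  | succ k ih =>
    rw [pow_succ, Module.End.mul_apply, LinearMap.sub_apply, theta_comb hψ, Module.End.one_apply,
      ← map_sub, ih]
    congr 1

/-- **A basis of products.** All products of determinants and pairings (of spaces of positive
dimension) in terms of a basis; a tensor is invariant under `D` iff it is a combination of the
members of the basis, with coefficients in `W`. -/
theorem exists_comb (ε : Letter Λ → ℂ)
    (hε : ∀ x : Letter Λ, ¬ Λ.orth x.1 = true → ε (dual x) = -ε x) (hε0 : ∀ x, ε x ≠ 0)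
    (κ : Type) [Fintype κ] [DecidableEq κ] :
    ∃ (n : ℕ) (d : Fin n → Data Λ κ), LinearIndependent ℂ (fun j => (d j).val ε) ∧
      (∀ j i, 0 < Λ.dim ((d j).μ i)) ∧
      ∀ (W : Type) [AddCommGroup W] [Module ℂ W] (x : (κ → Letter Λ) → W),
        x ∈ invariants ε κ W → ∃ z : Fin n → W, x = comb (fun j => (d j).val ε) z := by
  obtain ⟨n, d, hd, hpos, hspan⟩ := exists_data_basis (κ := κ) ε
    fun d : Data Λ κ => ∀ i, 0 < Λ.dim (d.μ i)
  refine ⟨n, d, hd, hpos, fun W _ _ x hx => ?_⟩
  obtain ⟨z, -, hz⟩ := exists_coords (A := (⊤ : Submodule ℂ W)) hspan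
    (P := fun _ μ _ => ∀ j, 0 < Λ.dim (μ j)) (fun _ _ h => ⟨trivial, Or.inl h⟩)
    (inv_mem hε hε0 (mem_invariants.mp hx))
  exact ⟨z, hz⟩

/-- If a subspace is described by its coordinates, it is a power of a subspace of `W`. -/
theorem equiv_of_coords {R V X : Type} [Ring R] [AddCommGroup V] [Module R V] [AddCommGroup X]
    [Module R X] {n : ℕ} (f : (Fin n → V) →ₗ[R] X) (hf : Function.Injective f)
    {P : Submodule R V} {Q : Submodule R X} (h1 : ∀ z, f z ∈ Q ↔ ∀ j, z j ∈ P)
    (h2 : ∀ x ∈ Q, ∃ z, x = f z) : Nonempty ((Fin n → P) ≃ₗ[R] Q) := by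
  let g : (Fin n → P) →ₗ[R] Q :=
    { toFun := fun z => ⟨f fun j => (z j : V), (h1 _).mpr fun j => (z j).2⟩
      map_add' := fun z z' => by
        apply Subtype.ext
        change f (fun j => ((z + z') j : V)) = f (fun j => (z j : V)) + f fun j => (z' j : V)
        rw [← map_add]
        rfl
      map_smul' := fun a z => by
        apply Subtype.ext
        change f (fun j => ((a • z) j : V)) = a • f (fun j => (z j : V))
        rw [← map_smul]
        rfl }
  refine ⟨LinearEquiv.ofBijective g ⟨fun z z' h => ?_, fun x => ?_⟩⟩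
  · have h3 : f (fun j => (z j : V)) = f fun j => (z' j : V) := congrArg Subtype.val h
    have h4 := hf h3
    funext j
    exact Subtype.ext (congrFun h4 j)
  · obtain ⟨z, hz⟩ := h2 x.1 x.2
    have h3 : ∀ j, z j ∈ P := (h1 z).mp (hz ▸ x.2)
    refine ⟨fun j => ⟨z j, h3 j⟩, Subtype.ext ?_⟩
    exact hz.symm

/-- integer valued linearly independent functions have a nondegenerate Gram matrix over `ℚ`: if the
contractions of `∑ b • z` with all the `b` lie in a subspace over a field `R`, then so do the `z` -/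
lemma mem_of_contract_field {Y : Type} [Fintype Y] {n : ℕ} {b : Fin n → Y → ℂ}
    (hb : LinearIndependent ℂ b) (hint : ∀ j w, ∃ a : ℤ, b j w = a) (R : Subfield ℂ)
    {A : Submodule R W} {z : Fin n → W}
    (h : ∀ k, contract (b k) (∑ j, fun w => b j w • z j) ∈ A) (j : Fin n) : z j ∈ A := by
  classical
  choose a ha using hint
  let G : Matrix (Fin n) (Fin n) ℤ := Matrix.of fun j k => ∑ w, a j w * a k w
  have hG : ∀ j k, (G j k : ℂ) = ∑ w, b j w * b k w := by
    intro j k
    change ((∑ w, a j w * a k w : ℤ) : ℂ) = _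
    push_cast
    exact sum_congr rfl fun w _ => by rw [ha, ha]
  have h1 : ∀ k, ∑ i, (G k i : ℂ) • z i ∈ A := by
    intro k
    have h2 := h k
    rw [contract_sum] at h2
    simp only [contract_smul, ← hG] at h2
    exact h2
  -- the determinant does not vanish
  have hdet : G.det ≠ 0 := by
    intro h0
    obtain ⟨v, hv, hv2⟩ := Matrix.exists_mulVec_eq_zero_iff.mpr h0
    apply hv
    have h3 : (∑ k, (v k : ℂ) • b k) = 0 := by
      have h4 : ∀ w, ∑ k, v k * a k w = 0 := by
        have h5 : ∑ w, (∑ k, v k * a k w) ^ 2 = 0 := by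
          have h6 : ∑ j, v j * ∑ k, G j k * v k = 0 := by
            refine sum_eq_zero fun j _ => ?_
            have h7 := congrFun hv2 j
            rw [Matrix.mulVec, dotProduct] at h7
            rw [h7]
            simp
          rw [← h6]
          have h8 : ∀ j, v j * ∑ k, G j k * v k = ∑ w, ∑ k, (v j * a j w) * (v k * a k w) := by
            intro j
            rw [mul_sum, sum_comm]
            refine sum_congr rfl fun k _ => ?_
            change v j * ((∑ w, a j w * a k w) * v k) = _
            rw [sum_mul, mul_sum]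
            exact sum_congr rfl fun w _ => by ring
          rw [sum_congr rfl fun j _ => h8 j, sum_comm]
          refine sum_congr rfl fun w _ => ?_
          rw [sq, sum_mul]
          exact sum_congr rfl fun j _ => by rw [mul_sum]
        intro w
        have h9 := (sum_eq_zero_iff_of_nonneg fun w _ => sq_nonneg _).mp h5 w (mem_univ w)
        exact pow_eq_zero_iff (two_ne_zero) |>.mp h9
      funext w
      rw [Finset.sum_apply, Pi.zero_apply]
      have h10 := h4 w
      have h11 : ∑ k, (v k : ℂ) * b k w = ((∑ k, v k * a k w : ℤ) : ℂ) := by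
        push_cast
        exact sum_congr rfl fun k _ => by rw [ha]
      change ∑ k, (v k : ℂ) * b k w = 0
      rw [h11, h10]
      simp
    funext j
    have h12 := Fintype.linearIndependent_iff.mp hb (fun k => (v k : ℂ)) h3 j
    exact_mod_cast h12
  -- Cramer's rule
  have h13 : (G.det : ℂ) • z j = ∑ k, (G.adjugate j k : ℂ) • ∑ i, (G k i : ℂ) • z i := by
    simp only [smul_sum, smul_smul]
    rw [sum_comm]
    simp only [← sum_smul]
    have h14 : ∀ i, ∑ k, (G.adjugate j k : ℂ) * (G k i : ℂ) = if j = i then (G.det : ℂ) else 0 := by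
      intro i
      have h15 := congrFun (congrFun (Matrix.adjugate_mul G) j) i
      rw [Matrix.mul_apply, Matrix.smul_apply, Matrix.one_apply] at h15
      have h16 : ((∑ k, G.adjugate j k * G k i : ℤ) : ℂ) = if j = i then (G.det : ℂ) else 0 := by
        rw [h15]
        split_ifs <;> simp
      rw [← h16]
      push_cast
      rfl
    rw [sum_eq_single j]
    · rw [h14, if_pos rfl]
    · intro i _ hi
      rw [h14, if_neg (Ne.symm hi), zero_smul]
    · intro h; exact absurd (mem_univ j) h
  have hcast : ∀ (c : ℤ) (y : W), (c : ℂ) • y = (c : R) • y := by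
    intro c y
    change (c : ℂ) • y = ((c : R) : ℂ) • y
    rw [SubringClass.coe_intCast]
  have h17 : (G.det : R) • z j ∈ A := by
    rw [← hcast, h13]
    refine Submodule.sum_mem _ fun k _ => ?_
    rw [hcast]
    exact Submodule.smul_mem _ _ (h1 k)
  have h18 : (G.det : R) ≠ 0 := by exact_mod_cast hdet
  have h19 : z j = (G.det : R)⁻¹ • ((G.det : R) • z j) := by
    rw [smul_smul, inv_mul_cancel₀ h18, one_smul]
  rw [h19]
  exact Submodule.smul_mem _ _ h17

omit [Fintype I] [Fintype κ] [DecidableEq κ] in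
/-- products of pairings and determinants are integers if the numbers `ε` are signs -/
lemma val_int {ε : Letter Λ → ℂ} (h : ∀ x, ε x = 1 ∨ ε x = -1) (d : Data Λ κ)
    (w : κ → Letter Λ) : ∃ a : ℤ, d.val ε w = a := by
  have h1 : ∀ (i : I) (u : Fin (Λ.dim i) → Letter Λ), ∃ a : ℤ, detOf i u = (a : ℂ) := by
    intro i u
    refine ⟨(Matrix.of fun a b : Fin (Λ.dim i) => if u a = ⟨i, b⟩ then (1 : ℤ) else 0).det, ?_⟩
    unfold detOf
    rw [Int.cast_det]
    congr 1
    ext a b
    simp only [Matrix.map_apply, Matrix.of_apply]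
    split_ifs <;> simp
  have h2 : ∀ (i : I) (x y : Letter Λ), ∃ a : ℤ, pairOf ε i x y = (a : ℂ) := by
    intro i x y
    unfold pairOf
    split_ifs
    · rcases h x with h3 | h3
      · exact ⟨1, by rw [h3]; simp⟩
      · exact ⟨-1, by rw [h3]; simp⟩
    · exact ⟨0, by simp⟩
    · exact ⟨0, by simp⟩
  unfold Data.val prodOf
  choose f hf using h1
  choose g hg using h2
  refine ⟨(∏ j, f (d.μ j) fun a => w (d.e (Sum.inl ⟨j, a⟩))) *
    ∏ q, g (d.ν q) (w (d.e (Sum.inr (q, 0)))) (w (d.e (Sum.inr (q, 1)))), ?_⟩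
  push_cast
  rw [Finset.prod_congr rfl fun j _ => hf _ _, Finset.prod_congr rfl fun q _ => hg _ _ _]

end Pool.Agent.Q59.IB
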