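import Pool.Agent.Q59.IB.Basis

/-!
# Similitudes act on products of pairings and determinants by scalars
-/

namespace Pool.Agent.Q59.IB

open Finset Pool.Agent.Q59.GC Pool.Agent.Q59.VZ

variable {N : ℕ} {I : Type} {Λ : Labels N I} [DecidableEq I] [Fintype I] {ε : Letter Λ → ℂ}

/-- A linear map of `H` which preserves the subspaces `V_i`, multiplies the pairings by `χ` and has
the determinant `δ i` on `V_i`. -/
structure IsSimilitude (ε : Letter Λ → ℂ) (χ : ℂ) (δ : I → ℂ)
    (g : Matrix (Letter Λ) (Letter Λ) ℂ) : Prop where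
  block : ∀ x y, x.1 ≠ y.1 → g x y = 0
  form : g * form ε * g.transpose = χ • form ε
  det : ∀ i : I, (Matrix.of fun a b : Fin (Λ.dim i) => g ⟨i, a⟩ ⟨i, b⟩).det = δ i

variable {χ : ℂ} {δ : I → ℂ} {g : Matrix (Letter Λ) (Letter Λ) ℂ}

lemma act_det (hg : IsSimilitude ε χ δ g) (i : I) (w : Fin (Λ.dim i) → Letter Λ) :
    ∑ v : Fin (Λ.dim i) → Letter Λ, (∏ a, g (w a) (v a)) * detOf i v = δ i * detOf i w := by
  have h1 : ∀ v : Fin (Λ.dim i) → Letter Λ, detOf i v =
      ∑ σ : Equiv.Perm (Fin (Λ.dim i)), ((Equiv.Perm.sign σ : ℤ) : ℂ) *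
        ∏ a, (if v a = ⟨i, σ a⟩ then (1 : ℂ) else 0) := by
    intro v
    unfold detOf
    rw [← Matrix.det_transpose, Matrix.det_apply']
    rfl
  have h2 : (Matrix.of fun a b : Fin (Λ.dim i) => g (w a) ⟨i, b⟩) =
      (Matrix.of fun a b : Fin (Λ.dim i) => if w a = ⟨i, b⟩ then (1 : ℂ) else 0) *
        (Matrix.of fun a b : Fin (Λ.dim i) => g ⟨i, a⟩ ⟨i, b⟩) := by
    ext a b
    rw [Matrix.mul_apply]
    simp only [Matrix.of_apply, ite_mul, one_mul, zero_mul]
    by_cases h : (w a).1 = i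
    · obtain ⟨c, hc⟩ := exists_mk (w a) h
      rw [hc]
      simp only [mk_eq_iff]
      rw [sum_ite_eq, if_pos (mem_univ _)]
    · rw [hg.block _ _ h]
      symm
      refine sum_eq_zero fun c _ => if_neg fun hc => h ?_
      rw [hc]
  have h3 : δ i * detOf i w = (Matrix.of fun a b : Fin (Λ.dim i) => g (w a) ⟨i, b⟩).det := by
    rw [h2, Matrix.det_mul, hg.det, mul_comm]
    rfl
  rw [h3, ← Matrix.det_transpose, Matrix.det_apply']
  simp only [h1, mul_sum]
  rw [sum_comm]
  refine sum_congr rfl fun σ _ => ?_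
  have h4 : ∏ a, (Matrix.of fun a b : Fin (Λ.dim i) => g (w a) ⟨i, b⟩).transpose (σ a) a =
      ∑ v : Fin (Λ.dim i) → Letter Λ, ∏ a, g (w a) (v a) *
        (if v a = ⟨i, σ a⟩ then (1 : ℂ) else 0) := by
    rw [← Fintype.piFinset_univ, ← Finset.prod_univ_sum (fun _ => univ)
      (fun a y => g (w a) y * (if y = ⟨i, σ a⟩ then (1 : ℂ) else 0))]
    refine prod_congr rfl fun a _ => ?_
    simp only [mul_ite, mul_one, mul_zero]
    rw [sum_ite_eq', if_pos (mem_univ _)]
    rfl
  rw [h4, mul_sum]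
  refine sum_congr rfl fun v _ => ?_
  rw [prod_mul_distrib]
  ring

lemma act_pair (hg : IsSimilitude ε χ δ g) (i : I) (x y : Letter Λ) :
    ∑ x', ∑ y', g x x' * g y y' * pairOf ε i x' y' = χ * pairOf ε i x y := by
  have h1 : ∀ x' y', g x x' * g y y' * pairOf ε i x' y' =
      if x.1 = i then g x x' * form ε x' y' * g y y' else 0 := by
    intro x' y'
    unfold pairOf
    by_cases h : x.1 = i
    · rw [if_pos h]
      by_cases h' : x'.1 = i
      · rw [if_pos h']
        simp only [GC.form, Matrix.of_apply]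
        ring
      · rw [if_neg h', hg.block x x' fun h2 => h' (h2 ▸ h)]
        ring
    · rw [if_neg h]
      by_cases h' : x'.1 = i
      · rw [hg.block x x' fun h2 => h (h2.trans h')]
        ring
      · rw [if_neg h', mul_zero]
  simp only [h1]
  by_cases h : x.1 = i
  · simp only [if_pos h]
    have h2 := congrFun (congrFun hg.form x) y
    rw [Matrix.mul_apply] at h2
    simp only [Matrix.mul_apply, Matrix.transpose_apply, Finset.sum_mul] at h2
    rw [sum_comm] at h2
    rw [h2]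
    unfold pairOf
    rw [if_pos h]
    rfl
  · simp only [if_neg h, sum_const_zero]
    unfold pairOf
    rw [if_neg h, mul_zero]

omit [DecidableEq I] in
/-- sums over words are products -/
lemma sum_words {κ L P : Type} [Fintype κ] [DecidableEq κ] [Fintype L] [DecidableEq L] [Fintype P]
    [DecidableEq P] {d : L → ℕ} (e : (Σ j : L, Fin (d j)) ⊕ (P × Fin 2) ≃ κ)
    (f : ∀ j, (Fin (d j) → Letter Λ) → ℂ) (h : P → Letter Λ → Letter Λ → ℂ) :
    ∑ v : κ → Letter Λ, (∏ j, f j fun a => v (e (Sum.inl ⟨j, a⟩))) *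
        ∏ q, h q (v (e (Sum.inr (q, 0)))) (v (e (Sum.inr (q, 1)))) =
      (∏ j, ∑ u : Fin (d j) → Letter Λ, f j u) * ∏ q, ∑ x, ∑ y, h q x y := by
  classical
  let E : (κ → Letter Λ) ≃ ((∀ j, Fin (d j) → Letter Λ) × (P → Letter Λ × Letter Λ)) :=
    (Equiv.arrowCongr e.symm (Equiv.refl _)).trans ((Equiv.sumArrowEquivProdArrow _ _ _).trans
      (Equiv.prodCongr (Equiv.piCurry fun _ _ => Letter Λ)
        ((Equiv.curry P (Fin 2) (Letter Λ)).trans (Equiv.arrowCongr (Equiv.refl P)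
          (finTwoArrowEquiv (Letter Λ))))))
  rw [← E.symm.sum_comp, Fintype.sum_prod_type]
  have h1 : ∀ (u : ∀ j, Fin (d j) → Letter Λ) (r : P → Letter Λ × Letter Λ) (j : L) (a : Fin (d j)),
      E.symm (u, r) (e (Sum.inl ⟨j, a⟩)) = u j a := by
    intro u r j a
    change (Sum.elim (fun s : (Σ j : L, Fin (d j)) => u s.1 s.2) _) (e.symm (e (Sum.inl ⟨j, a⟩))) = _
    rw [Equiv.symm_apply_apply]
    rfl
  have h2 : ∀ (u : ∀ j, Fin (d j) → Letter Λ) (r : P → Letter Λ × Letter Λ) (q : P),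
      E.symm (u, r) (e (Sum.inr (q, 0))) = (r q).1 ∧ E.symm (u, r) (e (Sum.inr (q, 1))) = (r q).2 := by
    intro u r q
    constructor
    · change (Sum.elim _ (fun s : P × Fin 2 => (finTwoArrowEquiv (Letter Λ)).symm (r s.1) s.2))
        (e.symm (e (Sum.inr (q, 0)))) = _
      rw [Equiv.symm_apply_apply]
      rfl
    · change (Sum.elim _ (fun s : P × Fin 2 => (finTwoArrowEquiv (Letter Λ)).symm (r s.1) s.2))
        (e.symm (e (Sum.inr (q, 1)))) = _
      rw [Equiv.symm_apply_apply]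
      rfl
  simp only [h1, (h2 _ _ _).1, (h2 _ _ _).2]
  simp only [← mul_sum]
  rw [← sum_mul]
  congr 1
  · rw [Finset.prod_univ_sum, Fintype.piFinset_univ]
  · have h3 : ∀ q, ∑ x, ∑ y, h q x y = ∑ r : Letter Λ × Letter Λ, h q r.1 r.2 := fun q => by
      rw [Fintype.sum_prod_type]
    simp only [h3]
    rw [Finset.prod_univ_sum, Fintype.piFinset_univ]

/-- **Similitudes multiply products of pairings and determinants by scalars.** -/
lemma act_prodOf (hg : IsSimilitude ε χ δ g) {κ : Type} [Fintype κ] [DecidableEq κ] {l p : ℕ}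
    (μ : Fin l → I) (ν : Fin p → I)
    (e : (Σ j : Fin l, Fin (Λ.dim (μ j))) ⊕ (Fin p × Fin 2) ≃ κ) (w : κ → Letter Λ) :
    act g (prodOf ε μ ν e) w = ((∏ j, δ (μ j)) * χ ^ p) * prodOf ε μ ν e w := by
  unfold act prodOf
  have h1 : ∀ v : κ → Letter Λ, (∏ k, g (w k) (v k)) *
      ((∏ j, detOf (μ j) fun a => v (e (Sum.inl ⟨j, a⟩))) *
        ∏ q, pairOf ε (ν q) (v (e (Sum.inr (q, 0)))) (v (e (Sum.inr (q, 1))))) =
      (∏ j, (fun (j : Fin l) (u : Fin (Λ.dim (μ j)) → Letter Λ) =>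
        (∏ a, g (w (e (Sum.inl ⟨j, a⟩))) (u a)) * detOf (μ j) u) j
          fun a => v (e (Sum.inl ⟨j, a⟩))) *
      ∏ q, (fun (q : Fin p) (x y : Letter Λ) => g (w (e (Sum.inr (q, 0)))) x *
        g (w (e (Sum.inr (q, 1)))) y * pairOf ε (ν q) x y) q
          (v (e (Sum.inr (q, 0)))) (v (e (Sum.inr (q, 1)))) := by
    intro v
    rw [← e.prod_comp, Fintype.prod_sum_type, Fintype.prod_sigma, Fintype.prod_prod_type]
    simp only [Fin.prod_univ_two, prod_mul_distrib]
    ring
  have h2 := sum_words e (fun (j : Fin l) (u : Fin (Λ.dim (μ j)) → Letter Λ) =>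
      (∏ a, g (w (e (Sum.inl ⟨j, a⟩))) (u a)) * detOf (μ j) u)
    (fun (q : Fin p) (x y : Letter Λ) => g (w (e (Sum.inr (q, 0)))) x *
      g (w (e (Sum.inr (q, 1)))) y * pairOf ε (ν q) x y)
  refine ((sum_congr rfl fun v _ => h1 v).trans h2).trans ?_
  simp only [act_det hg, act_pair hg, prod_mul_distrib]
  rw [prod_const, card_univ, Fintype.card_fin]
  ring

omit [Fintype I] in
/-- products of pairings and determinants are real if the numbers `ε` are real -/
lemma prodOf_real (hre : ∀ x, (starRingEnd ℂ) (ε x) = ε x) {κ : Type} {l p : ℕ}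
    (μ : Fin l → I) (ν : Fin p → I)
    (e : (Σ j : Fin l, Fin (Λ.dim (μ j))) ⊕ (Fin p × Fin 2) ≃ κ) (w : κ → Letter Λ) :
    (starRingEnd ℂ) (prodOf ε μ ν e w) = prodOf ε μ ν e w := by
  unfold prodOf
  rw [map_mul, map_prod, map_prod]
  congr 1
  · refine prod_congr rfl fun j _ => ?_
    unfold detOf
    rw [RingHom.map_det]
    congr 1
    ext a b
    simp only [RingHom.mapMatrix_apply, Matrix.map_apply, Matrix.of_apply]
    split_ifs
    · exact map_one _
    · exact map_zero _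
  · refine prod_congr rfl fun q _ => ?_
    unfold pairOf
    split_ifs
    · exact hre _
    · exact map_zero _
    · exact map_zero _

end Pool.Agent.Q59.IB
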